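import Pool.Agent.Q30.FK.Red
import Pool.Agent.Q121.FK.Step
import Pool.Agent.Q121.FK.Gr
import Pool.Agent.Q23.FK.Cls
import Pool.Agent.Q23.FK.Loc
import Pool.Agent.Q23.FK.Tor
import Pool.Agent.Q53.FK.Evg
import Pool.Agent.Q176.FK.Idn
import Pool.Agent.Q296.FK.Cm

/-!
# The reduced cohomology ring of the second Frobenius kernel of the Borel subgroup of `SL_3` in
characteristic two is not Cohen-Macaulay

`RedB k` is the reduced rational cohomology ring `H(B_2, k)_red` of the kernel `B_2` of the second
power of the Frobenius morphism on the group `B` of the upper triangular matrices in `SL_3`. It is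
a Noetherian ring, and it is not Cohen-Macaulay.
-/

namespace Pool.Agent.Results.MP_5f3851_al.SlThreeCharTwo

open Q30.FK

theorem jobs : Jobs where
  cls := Q23.FK.cls_facts
  step i hi := by
    match i, hi with
    | 0, _ => exact Q121.FK.step0
    | 1, _ => exact Q121.FK.step1
    | 2, _ => exact Q121.FK.step2
    | 3, _ => exact Q121.FK.step3
    | 4, _ => exact Q121.FK.step4
    | 5, _ => exact Q121.FK.step5
  tor6 := Q23.FK.tor6
  tor7 := Q23.FK.tor7
  idn := Q176.FK.idn Q23.FK.cls_facts
  evg := Pool.Agent.Q53.FK.evg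
  gr := Q121.FK.gr
  nak := Q23.FK.nak
  loc := Q23.FK.loc
  cm := Pool.Agent.Q296.FK.cm

/-- For every algebraically closed field `k` of characteristic two the reduced cohomology ring
`H(B_2, k)_red`, where `B` is the Borel subgroup of `SL_3`, is Noetherian but not
Cohen-Macaulay. -/
theorem result (k : Type) [Field k] [CharP k 2] [IsAlgClosed k] :
    IsNoetherianRing (RedB k) ∧ ¬ IsCMRing (RedB k) := main' jobs k

end Pool.Agent.Results.MP_5f3851_al.SlThreeCharTwo
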